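import Pool.Agent.P.MP_c1f06d_ag.g.ShTop
import Pool.Agent.P.MP_c1f06d_ag.g.NVw

open TensorProduct Pool.Agent.RG

universe u

namespace Pool.Agent.Results.MP_c1f06d_ag.AllReductive

/-- Grothendieck-Serre over a local ring `R` of a smooth algebra `C` over a valuation ring `V` that
contains a field `k`: for a reductive group scheme `G = Spec A` over `R`, an fppf `G`-torsor `F`
with a section over the fraction field `K` of `R` has a section over `R`. -/
theorem result (k : Type u) [Field k] (V : Type u) [CommRing V] [IsDomain V] [ValuationRing V]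
    [Algebra k V] (C : Type u) [CommRing C] [Algebra V C] [Algebra.Smooth V C] (p : Ideal C)
    [p.IsPrime] (R : Type u) [CommRing R] [Algebra C R] [IsLocalization.AtPrime R p]
    (K : Type u) [Field K] [Algebra R K] [IsFractionRing R K]
    (A : Type u) [CommRing A] [HopfAlgebra R A] (hA : IsReductive R A)
    (F : SheafTorsor R A) (hK : Nonempty (F.obj K)) : Nonempty (F.obj R) :=
  gs_sheaf k V C p R K A hA F hK

/-- The same for a torsor given as an affine scheme `Spec E` with a coaction. -/
theorem affine (k : Type u) [Field k] (V : Type u) [CommRing V] [IsDomain V] [ValuationRing V]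
    [Algebra k V] (C : Type u) [CommRing C] [Algebra V C] [Algebra.Smooth V C] (p : Ideal C)
    [p.IsPrime] (R : Type u) [CommRing R] [Algebra C R] [IsLocalization.AtPrime R p]
    (K : Type u) [Field K] [Algebra R K] [IsFractionRing R K]
    (A : Type u) [CommRing A] [HopfAlgebra R A] (hA : IsReductive R A)
    (E : Type u) [CommRing E] [Algebra R E] (ρ : E →ₐ[R] A ⊗[R] E) (hE : IsTorsor ρ)
    (hK : Nonempty (E →ₐ[R] K)) : Nonempty (E →ₐ[R] R) :=
  gs_red k V C p R K A hA E ρ hE hK

/-! The theorems below add nothing to the claim. They test the definitions used in `result`. -/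

/-- `result` is false when `C` is only a flat finitely presented domain over `V` (the circle group
over the local ring at the origin of the real curve `x ^ 2 + y ^ 2 = 0`). -/
theorem sharp : ¬ ∀ (k : Type) [Field k] (V : Type) [CommRing V] [IsDomain V] [ValuationRing V]
    [Algebra k V] (C : Type) [CommRing C] [IsDomain C] [Algebra V C]
    [Algebra.FinitePresentation V C] [Module.Flat V C] (p : Ideal C)
    [p.IsPrime] (R : Type) [CommRing R] [Algebra C R] [IsLocalization.AtPrime R p]
    (K : Type) [Field K] [Algebra R K] [IsFractionRing R K]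
    (A : Type) [CommRing A] [HopfAlgebra R A], IsReductive R A →
    ∀ F : SheafTorsor R A, Nonempty (F.obj K) → Nonempty (F.obj R) :=
  RED.NV.sharp

/-- The points of an affine torsor form a `SheafTorsor`. -/
theorem points (R A : Type u) [CommRing R] [CommRing A] [HopfAlgebra R A] (E : Type u) [CommRing E]
    [Algebra R E] [Algebra.FinitePresentation R E] (ρ : AlgHom R E (A ⊗[R] E)) (hE : IsTorsor ρ) :
    ∃ F : SheafTorsor R A, ∀ (T : Type u) [CommRing T] [Algebra R T], F.obj T = AlgHom R E T :=
  RED.NV.points R A E ρ hE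

/-- `GL_n` is reductive over every ring: `m` is the universal invertible matrix. -/
theorem gl (R : Type u) [CommRing R] (n : ℕ) :
    ∃ (A : Type u) (_ : CommRing A) (_ : HopfAlgebra R A) (m : Fin n → Fin n → A),
      (∀ (T : Type u) [CommRing T] [Algebra R T] (a b : Fin n → Fin n → T),
        (∀ i j, ∑ l, a i l * b l j = if i = j then 1 else 0) →
          ∃! g : AlgHom R A T, ∀ i j, g (m i j) = a i j) ∧
      (∀ (T : Type u) [CommRing T] [Algebra R T] (g h : AlgHom R A T) (i j : Fin n),
        Algebra.TensorProduct.lift g h (fun _ _ => Commute.all _ _)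
          (Bialgebra.comulAlgHom R A (m i j)) = ∑ l, g (m i l) * h (m l j)) ∧
      (∀ i j, Bialgebra.counitAlgHom R A (m i j) = if i = j then 1 else 0) ∧ IsReductive R A :=
  RED.NV.gl_coord R n

/-- The additive group is smooth and is not reductive. -/
theorem ga (R : Type u) [CommRing R] (h : (0 : R) ≠ 1) :
    ∃ (A : Type u) (_ : CommRing A) (_ : HopfAlgebra R A) (x : A),
      (∀ (T : Type u) [CommRing T] [Algebra R T] (t : T), ∃! g : AlgHom R A T, g x = t) ∧
      (∀ (T : Type u) [CommRing T] [Algebra R T] (g h : AlgHom R A T),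
        Algebra.TensorProduct.lift g h (fun _ _ => Commute.all _ _)
          (Bialgebra.comulAlgHom R A x) = g x + h x) ∧ Algebra.Smooth R A ∧ ¬ IsReductive R A :=
  RED.NV.ga_coord R h

/-- A point is `IsUnipotent` exactly when it acts unipotently in every matrix representation. -/
theorem unip (W B : Type u) [Field W] [CommRing B] [HopfAlgebra W B]
    [Algebra.FinitePresentation W B] (g : WithConv (AlgHom W B W)) :
    IsUnipotent g ↔ ∀ (n : ℕ) (m : Fin n → Fin n → B),
      (∀ (T : Type u) [CommRing T] [Algebra W T] (a b : AlgHom W B T) (i j : Fin n),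
        Algebra.TensorProduct.lift a b (fun _ _ => Commute.all _ _)
          (Bialgebra.comulAlgHom W B (m i j)) = ∑ l, a (m i l) * b (m l j)) →
      (∀ i j, Bialgebra.counitAlgHom W B (m i j) = if i = j then 1 else 0) →
      ∀ L : LinearMap (RingHom.id W) (Fin n → W) (Fin n → W),
        (∀ v i, L v i = ∑ j, g.ofConv (m i j) * v j) → ∃ s : ℕ, (L - 1) ^ s = 0 :=
  RED.NV.unip_coord W B g

/-- Connected closed subgroups may replace irreducible ones in `IsConnReductive`. -/
theorem connForm (W B : Type u) [Field W] [IsAlgClosed W] [CommRing B] [HopfAlgebra W B]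
    [Algebra.FinitePresentation W B] :
    IsConnReductive W B ↔ ConnectedSpace (PrimeSpectrum B) ∧
      ∀ (U : @Subgroup (WithConv (AlgHom W B W)) AlgHom.convGroup) (I : Ideal B),
        ConnectedSpace (PrimeSpectrum (B ⧸ I)) → (∀ g, g ∈ U ↔ ∀ f ∈ I, g.ofConv f = 0) →
          U.Normal → (∀ g ∈ U, IsUnipotent g) → U = ⊥ :=
  RED.NV.conn_coord W B

end Pool.Agent.Results.MP_c1f06d_ag.AllReductive
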