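import Pool.Agent.P.MP_c1f06d_ag.u.Main

open Pool.Agent.GUS

universe u

namespace Pool.Agent.Results.MP_c1f06d_ag.ClassicalTorsors

/-- Grothendieck-Serre for the simply connected semisimple groups of classical type and of type
`G2`, over a local ring `R` of a smooth algebra over an arbitrary valuation ring: a torsor with a
point over the fraction field has a point over `R`. -/
theorem result (V : Type u) [CommRing V] [IsDomain V] [ValuationRing V]
    (C : Type u) [CommRing C] [Algebra V C] [Algebra.Smooth V C] (p : Ideal C) [p.IsPrime]
    (R : Type u) [CommRing R] [Algebra C R] [IsLocalization.AtPrime R p]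
    (G : GF R) (hG : Family G)
    (E : Type u) [CommRing E] [Algebra R E] (hE : G.IsTorsor E)
    (hK : Nonempty (E →ₐ[R] FractionRing R)) : Nonempty (E →ₐ[R] R) :=
  Pool.Agent.GU.family_main V C p hG hE hK

end Pool.Agent.Results.MP_c1f06d_ag.ClassicalTorsors
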